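import Pool.Agent.Helper30.Full.GoalsW

/-! Packet W2: uniform domination. -/

set_option autoImplicit false
set_option linter.unusedSectionVars false

namespace Pool.Agent.Helper6.Full

open Pool.Agent.Helper30.Full Polynomial

universe u

section

variable {p : ℕ} [Fact p.Prime] {d : ℕ} {X : Type u} [AddCommGroup X] [TopologicalSpace X]
  [IsTopologicalAddGroup X] [CompactSpace X] [T2Space X] (b : Act p d X)

/-- local constancy of the image of `T_u` -/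
lemma range_le (u₀ r : Fin d → ℤ_[p]) (m : ℕ)
    (hm : ∀ k x, ∃ y, b.T (p ^ m • k) x = b.T u₀ y) (x : X) :
    ∃ y, b.T u₀ x = b.T (u₀ + p ^ (m + 1) • r) y := by
  have hp := (Fact.out : p.Prime)
  set v : Fin d → ℤ_[p] := p ^ m • r with hv
  set u : Fin d → ℤ_[p] := u₀ + p ^ (m + 1) • r with hu
  have hw : p ^ (m + 1) • r = p ^ 1 • v := by
    rw [hv, smul_smul, ← pow_add, add_comm]
  have hle : (AddMonoidHom.range (b.T u₀)) ≤ (AddMonoidHom.range (b.T u)) := by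
    refine nakayama b u₀ _ _ (closed_rangeT b u) ?_ ?_
    · rintro z ⟨y, rfl⟩
      exact ⟨b.T u₀ y, T_comm_apply b u u₀ y⟩
    · rintro y ⟨x, rfl⟩
      obtain ⟨P, hP⟩ := T_ppow b 1 v
      obtain ⟨q, hq⟩ : ∃ q, p = q + 2 := ⟨p - 2, by have := hp.two_le; omega⟩
      obtain ⟨y', hy'⟩ := hm r ((b.T v ^ q) x)
      obtain ⟨y'', hy''⟩ := hm r y'
      obtain ⟨y₃, hy₃⟩ := hm r ((aeval (b.T v) P) x)
      have e1 : (b.T v ^ p ^ 1) x = b.T u₀ (b.T u₀ y'') := by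
        have h0 : b.T v ^ p ^ 1 = b.T v * (b.T v * b.T v ^ q) := by
          rw [← pow_succ', ← pow_succ']
          congr 1
          rw [pow_one]
          exact hq
        have h1 : (b.T v ^ p ^ 1) x = b.T v (b.T v ((b.T v ^ q) x)) :=
          congrArg (fun f : AddMonoid.End X => f x) h0
        have h2 : b.T v ((b.T v ^ q) x) = b.T u₀ y' := hy'
        have h3 : b.T v y' = b.T u₀ y'' := hy''
        rw [h1, h2, T_comm_apply, h3]
      have e2 : b.T (p ^ (m + 1) • r) x = b.T u₀ (b.T u₀ y'') + p • b.T u₀ y₃ := by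
        have h3 : b.T v ((aeval (b.T v) P) x) = b.T u₀ y₃ := hy₃
        have h1 : b.T (p ^ 1 • v) x = (b.T v ^ p ^ 1) x + p • (b.T v * aeval (b.T v) P) x := by
          rw [hP]; rfl
        have h2 : (b.T v * aeval (b.T v) P) x = b.T v ((aeval (b.T v) P) x) := rfl
        rw [hw, h1, e1, h2, h3]
      have e3 : b.T u x = b.T u₀ x + b.σ u₀ (b.T (p ^ (m + 1) • r) x) := T_add_apply b _ _ _
      refine ⟨b.T u x, ⟨x, rfl⟩, -b.T u₀ (b.σ u₀ y''), ?_, -b.T u₀ (b.σ u₀ y₃), ?_, ?_⟩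
      · exact (AddMonoidHom.range (b.T u₀)).neg_mem ⟨b.σ u₀ y'', rfl⟩
      · exact (AddMonoidHom.range (b.T u₀)).neg_mem ⟨b.σ u₀ y₃, rfl⟩
      · show b.T u₀ x = b.T u x + b.T u₀ (-b.T u₀ (b.σ u₀ y'')) + p • (-b.T u₀ (b.σ u₀ y₃))
        have e4 : b.σ u₀ (b.T u₀ (b.T u₀ y'')) = b.T u₀ (b.T u₀ (b.σ u₀ y'')) := by
          rw [← T_comm_σ_apply, ← T_comm_σ_apply]
        have e5 : b.σ u₀ (b.T u₀ y₃) = b.T u₀ (b.σ u₀ y₃) := (T_comm_σ_apply b _ _ _).symm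
        rw [e3, e2, map_add, map_nsmul, e4, e5, map_neg, smul_neg]
        abel
  obtain ⟨y, hy⟩ := hle ⟨x, rfl⟩
  exact ⟨y, hy.symm⟩

end

theorem pf_W2 : StmtW2.{u} := by
  intro p _ d X _ _ _ _ _ b s h
  have hp := (Fact.out : p.Prime)
  have hp1 : (1 : ℝ) < p := by exact_mod_cast hp.one_lt
  -- the local statement
  have hloc : ∀ u₀ : Fin d → ℤ_[p], Unit' 0 s u₀ → ∃ m : ℕ, ∀ r k x, ∃ y,
      b.T (p ^ m • k) x = b.T (u₀ + p ^ (m + 1) • r) y := by
    intro u₀ hu₀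
    have hns : ¬ Small b u₀ := by
      rw [h.small]
      intro h0
      obtain ⟨i, _, hi, hd⟩ := hu₀
      exact hd (by rw [h0 i hi]; exact dvd_zero _)
    obtain ⟨m, hm⟩ := h.dom u₀ hns
    refine ⟨m, fun r k x => ?_⟩
    obtain ⟨y, hy⟩ := hm k x
    obtain ⟨z, hz⟩ := range_le b u₀ r m hm y
    exact ⟨z, by rw [hy, hz]⟩
  choose! M hM using hloc
  -- compactness
  set C : Set (Fin d → ℤ_[p]) := {u | Unit' 0 s u} with hC
  have hCc : IsClosed C := by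
    have h1 : C = ⋃ i ∈ {i : Fin d | (i : ℕ) < s}, {u : Fin d → ℤ_[p] | 1 ≤ ‖u i‖} := by
      ext u
      simp only [hC, Set.mem_ofPred_eq, Unit', Set.mem_iUnion, exists_prop, zero_le, true_and]
      refine exists_congr fun i => and_congr_right fun _ => ?_
      rw [← PadicInt.norm_lt_one_iff_dvd, not_lt]
    rw [h1]
    refine Set.Finite.isClosed_biUnion (Set.toFinite _) fun i _ => ?_
    exact isClosed_le continuous_const ((continuous_apply i).norm)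
  have hCK : IsCompact C := hCc.isCompact
  obtain ⟨t, ht, htC⟩ := hCK.elim_nhds_subcover
    (fun u₀ => Metric.ball u₀ ((p : ℝ) ^ (-(M u₀ : ℤ))))
    (fun u₀ _ => Metric.ball_mem_nhds _ (by positivity))
  refine ⟨t.sup M, fun u hu k x => ?_⟩
  obtain ⟨u₀, hu₀⟩ := Set.mem_iUnion.1 (htC hu)
  obtain ⟨hu₀t, hu₀b⟩ := Set.mem_iUnion.1 hu₀
  have hle : M u₀ ≤ t.sup M := Finset.le_sup hu₀t
  have hr : ∃ r : Fin d → ℤ_[p], u = u₀ + p ^ (M u₀ + 1) • r := by
    have h2 : ∀ i, ∃ c : ℤ_[p], u i - u₀ i = (p : ℤ_[p]) ^ (M u₀ + 1) * c := by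
      intro i
      have h3 : dist (u i) (u₀ i) < (p : ℝ) ^ (-(M u₀ : ℤ)) :=
        lt_of_le_of_lt (dist_le_pi_dist u u₀ i) hu₀b
      rw [dist_eq_norm] at h3
      have h4 : ‖u i - u₀ i‖ ≤ (p : ℝ) ^ (-((M u₀ + 1 : ℕ) : ℤ)) := by
        have := (PadicInt.norm_le_pow_iff_norm_lt_pow_add_one (u i - u₀ i)
          (-((M u₀ + 1 : ℕ) : ℤ))).2
        apply this
        convert h3 using 2
        push_cast
        ring
      have h5 := (PadicInt.norm_le_pow_iff_mem_span_pow (u i - u₀ i) (M u₀ + 1)).1 h4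
      exact Ideal.mem_span_singleton.1 h5
    choose c hc using h2
    refine ⟨c, ?_⟩
    funext i
    have := hc i
    have h9 : (p ^ (M u₀ + 1) • c) i = (p : ℤ_[p]) ^ (M u₀ + 1) * c i := by
      simp
    rw [Pi.add_apply, h9, ← this]; ring
  obtain ⟨r, hr⟩ := hr
  obtain ⟨y, hy⟩ := hM u₀ (ht u₀ hu₀t) r (p ^ (t.sup M - M u₀) • k) x
  refine ⟨y, ?_⟩
  rw [hr, ← hy, smul_smul, ← pow_add, Nat.add_sub_cancel' hle]

end Pool.Agent.Helper6.Full
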